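import Pool.Agent.H419R3.GFinal

set_option autoImplicit false

namespace Pool.Agent.Results.MP_1c9ad1_nt.FirstSignChange

open Pool.Agent.H419R3

/-- For every prime `p`, every quaternion algebra over `ℚ` ramified exactly at `p` and `∞`, and
every ordered pair of non-conjugate maximal orders, the first sign change `n₀(O, O')` exists and
is at most `2p + 1`. -/
theorem result : ∀ p : ℕ, p.Prime → ∀ a b : ℚ, RamifiedExactly a b p →
    ∀ O O' : Subring (QuaternionAlgebra ℚ a 0 b), IsMaximalOrder O → IsMaximalOrder O' →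
      ¬ Conjugate O O' →
        ∃ n₀ : ℕ, IsLeast (signChangeBounds O O') n₀ ∧ n₀ ≤ 2 * p + 1 :=
  fun _ hp _ _ hr _ _ hO hO' hne => sign_change_bound hp hr hO hO' hne

end Pool.Agent.Results.MP_1c9ad1_nt.FirstSignChange
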